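import Pool.Agent.Helper1.Stab.T.Nat
import Pool.Agent.Helper1.Stab.T.Cls

/-! Auxiliary calculations for the projection `ϖ` of project T. -/

open CategoryTheory Topology Filter Set Opposite

noncomputable section

namespace Pool.Agent.Helper97.Stab

open Pool.Agent.Helper1.Stab Pool.Agent.Helper63.Stab Pool.Agent.Helper67.Stab

theorem ntr_pre_jh {T R : Biv} (ϖ : NTr T R) {K K' Z : LC} (e : K' ≃ₜ K) (x : T.Hom K Z) :
    ϖ.F (T.comp (jh T e) x) = R.comp (jh R e) (ϖ.F x) := ϖ.pre _ x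

theorem ntr_post_jh {T R : Biv} (ϖ : NTr T R) {K Z Z' : LC} (e : Z ≃ₜ Z') (x : T.Hom K Z) :
    ϖ.F (T.comp x (jh T e)) = R.comp (ϖ.F x) (jh R e) := ϖ.post _ x

theorem ntr_ltens {T R : Biv} (ϖ : NTr T R) (V : LC) {K Z : LC} (x : T.Hom K Z) :
    ϖ.F (T.ltens V x) = R.ltens V (ϖ.F x) := by
  change ϖ.F (T.comp _ (T.comp _ _)) = R.comp _ (R.comp _ _)
  rw [ϖ.pre, ϖ.post, ϖ.tens]

theorem flip_front (R : Biv) (A W : LC) [Crd A] :
    jh R (lp A (Homeomorph.refl (A.prod W))) = R.J (PMap.id (A.prod (A.prod W))) := by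
  have h := rp_perm_eq (R := R) W (p := (Homeomorph.prodComm A A : A.prod A ≃ₜ A.prod A))
    (p' := (Homeomorph.refl (A.prod A) : A.prod A ≃ₜ A.prod A)) (IsPerm.prodComm A A)
    (IsPerm.refl _)
  have e1 : jh R (lp A (Homeomorph.refl (A.prod W))) = R.comp
      (jh R (K := A.prod (A.prod W)) (L := (A.prod A).prod W) (Homeomorph.prodAssoc A A W).symm)
      (jh R (rp W (Homeomorph.prodComm A A : A.prod A ≃ₜ A.prod A))) := by
    rw [← jh_trans]
    exact jh_congr R fun _ => rfl
  rw [e1, h, ← jh_trans]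
  exact jh_id R fun _ => rfl

/-- `A × (pt × W) = A × W` -/
def epsH (A W : LC) : A.prod (LC.point.prod W) ≃ₜ A.prod W :=
  (Homeomorph.refl A).prodCongr (LC.lunit W)

/-- multiplication with `a` in front is multiplication behind -/
theorem mulx_eq (T : Biv) {A : LC} [Crd A] (a : T.Hom A LC.point) {K W : LC}
    (c : T.Hom K (A.prod W)) :
    T.mulx a c = T.comp (T.ltens A (T.comp c (T.tens a W))) (jh T (epsH A W)) := by
  have h1 : T.mulx a c = T.comp (T.tens a K) (T.comp (jh T (lu K)) c) := rfl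
  have h2 : T.comp (T.tens a (A.prod W)) (jh T (lu (A.prod W))) =
      T.comp (T.ltens A (T.tens a W)) (jh T (epsH A W)) := by
    rw [tens_eq_pl a W, ltens_pl, pl_jh, pl, flip_front, T.id_comp]
    congr 1
  rw [h1, lu_nat, ← T.assoc, T.exch, T.assoc, ltens_comp, T.assoc, h2]

theorem com_of_lin {T : Biv} (ϖ : NTr T T) {A : LC} [Crd A] (a : T.Hom A LC.point)
    (h : ϖ.Lin a a) : ϖ.Com a := by
  intro K W x
  have h1 := h x
  rw [mulx_eq, mulx_eq, ntr_post_jh, ntr_ltens] at h1
  have h2 := congrArg (fun t => T.comp t (jh T (epsH A W).symm)) h1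
  have h3 : T.comp (jh T (epsH A W)) (jh T (epsH A W).symm) = T.J (PMap.id _) :=
    jh_comp_symm' T (epsH A W)
  simp only [T.assoc] at h2
  rw [h3, T.comp_id, T.comp_id] at h2
  exact (ltens_bij A _ _).1 h2

/-- a transformation that fixes the unit fixes all maps -/
theorem ntr_J {T : Biv} (ϖ : NTr T T)
    (h : ϖ.F (T.J (PMap.id LC.point)) = T.J (PMap.id LC.point)) {K Z : LC} (f : PMap K Z.plus) :
    ϖ.F (T.J f) = T.J f := by
  have h1 : ϖ.F (T.J (PMap.id Z)) = T.J (PMap.id Z) := by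
    have e : T.J (PMap.id Z) = T.comp (jh T (LC.lunit Z).symm)
        (T.comp (T.tens (T.J (PMap.id LC.point)) Z) (jh T (LC.lunit Z))) := by
      rw [tens_id, T.id_comp, jh_symm_comp']
    rw [e, ntr_pre_jh, ntr_post_jh, ϖ.tens, h]
  have h2 : T.J f = T.comp (T.J f) (T.J (PMap.id Z)) := (T.comp_id _).symm
  conv_lhs => rw [h2, ϖ.pre, h1]
  exact T.comp_id _

/-- the product over `K × X` of classes over `K` and `X` -/
theorem mulc_eq_mulx (R : Biv) {K X : LC} [CompactSpace K] [CompactSpace X]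
    (c : R.Hom K LC.point) (z : R.Hom X LC.point) :
    R.mulc (R.comp (R.J (PMap.ofCont (K := K.prod X) (L := K) Prod.fst continuous_fst)) c)
      (R.comp (R.J (PMap.ofCont (K := K.prod X) (L := X) Prod.snd continuous_snd)) z) =
      R.mulx c z := by
  have e1 : R.comp (R.tens c (K.prod X)) (R.ltens LC.point (R.J
      (PMap.ofCont (K := K.prod X) (L := X) Prod.snd continuous_snd))) =
      R.comp (R.ltens K (R.J (PMap.ofCont (K := K.prod X) (L := X) Prod.snd continuous_snd)))
        (R.tens c X) := R.exch _ _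
  have e2 : R.mulx c z = R.comp (R.tens c X) (R.comp (jh R (lu X)) z) := rfl
  rw [Biv.mulc, R.tens_comp, ltens_comp, e2, lu_nat]
  simp only [R.assoc]
  rw [← R.assoc (R.tens c _) (R.ltens LC.point _), e1]
  simp only [R.assoc]
  rw [R.tens_J, ltens_J, ← R.assoc (R.J (PMap.tens _ _)), ← R.J_comp, ← R.assoc, ← R.J_comp]
  have e3 : ((PMap.ltens K (PMap.ofCont (K := K.prod X) (L := X) Prod.snd continuous_snd)).comp
      (PMap.tens (PMap.ofCont (K := K.prod X) (L := K) Prod.fst continuous_fst)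
        (K.prod X))).comp (graph (X := K.prod X) (L := K.prod X) (fun k => k) continuous_id) =
      PMap.id (K.prod X) := by
    ext k
    rfl
  rw [e3, R.id_comp]
  rfl

/-- the class `c` times the identity of `X`, followed by `z` -/
theorem uniC_comp (R : Biv) {K X Z : LC} (c : R.Hom K LC.point) (z : R.Hom X Z) :
    R.comp (R.comp (R.tens c X) (jh R ((LC.lunit X).trans (Homeomorph.prodPUnit X).symm)))
      (R.tens z LC.point) = R.comp (R.mulx c z)
        (jh R (K := Z) (L := Z.prod LC.point) (Homeomorph.prodPUnit Z).symm) := by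
  have h1 : R.comp (R.tens z LC.point) (jh R (K := Z.prod LC.point) (L := Z)
      (Homeomorph.prodPUnit Z)) = R.comp (jh R (K := X.prod LC.point) (L := X)
        (Homeomorph.prodPUnit X)) z := R.tens_point z
  have h2 : R.tens z LC.point = R.comp (jh R (K := X.prod LC.point) (L := X)
      (Homeomorph.prodPUnit X)) (R.comp z (jh R (K := Z) (L := Z.prod LC.point)
        (Homeomorph.prodPUnit Z).symm)) := by
    rw [← R.assoc, ← h1, R.assoc]
    have h3 : R.comp (jh R (K := Z.prod LC.point) (L := Z) (Homeomorph.prodPUnit Z))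
        (jh R (K := Z) (L := Z.prod LC.point) (Homeomorph.prodPUnit Z).symm) =
        R.J (PMap.id _) := jh_comp_symm' R (K := Z.prod LC.point) (L := Z) (Homeomorph.prodPUnit Z)
    rw [h3, R.comp_id]
  have h4 : R.comp (jh R (K := LC.point.prod X) (L := X.prod LC.point)
      ((LC.lunit X).trans (Homeomorph.prodPUnit X).symm)) (jh R (K := X.prod LC.point) (L := X)
        (Homeomorph.prodPUnit X)) = jh R (LC.lunit X) := by
    rw [← jh_trans]
    exact jh_congr R fun _ => rfl
  rw [h2, R.assoc, ← R.assoc (jh R _) (jh R _), h4]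
  have h5 : R.mulx c z = R.comp (R.tens c X) (R.comp (jh R (LC.lunit X)) z) := rfl
  rw [h5]
  simp only [R.assoc]

/-- the product of tautological classes -/
theorem mulx_g (R : GBiv) {X : LC} [CompactSpace X] (κ l : Type) [Fintype κ] [Fintype l]
    (r : X → GK l) (hr : Continuous r) :
    R.toBiv.mulx (R.g κ) (R.comp (R.J (PMap.ofCont (K := X) (L := LC.G l) r hr)) (R.g l)) =
      R.comp (R.J (PMap.ofCont (K := (LC.G κ).prod X) (L := LC.G (κ ⊕ l))
        (fun x => GK.sum (x.1, r x.2)) (GK.continuous_sum.comp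
          (continuous_fst.prodMk (hr.comp continuous_snd))))) (R.g (κ ⊕ l)) := by
  have h1 : R.toBiv.mulx (R.g κ) (R.comp (R.J (PMap.ofCont (K := X) (L := LC.G l) r hr))
      (R.g l)) = R.comp (R.tens (R.g κ) X) (R.comp (jh R.toBiv (lu X)) (R.comp
        (R.J (PMap.ofCont (K := X) (L := LC.G l) r hr)) (R.g l))) := rfl
  have h2 : R.comp (R.tens (R.g κ) X) (R.ltens LC.point
      (R.J (PMap.ofCont (K := X) (L := LC.G l) r hr))) = R.comp (R.ltens (LC.G κ)
        (R.J (PMap.ofCont (K := X) (L := LC.G l) r hr))) (R.tens (R.g κ) (LC.G l)) :=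
    R.exch _ _
  have h3 := R.g_sum κ l
  rw [h1, lu_nat, ltens_comp, R.assoc, ← R.assoc (R.tens (R.g κ) X), h2, R.assoc,
    ← R.assoc (R.tens (R.g κ) (LC.G l))]
  have h4 : R.comp (R.comp (R.tens (R.g κ) (LC.G l)) (R.ltens LC.point (R.g l)))
      (jh R.toBiv (lu LC.point)) = R.comp (R.J (GK.sumMap κ l)) (R.g (κ ⊕ l)) := h3.symm
  rw [h4, ltens_J, ← R.assoc, ← R.J_comp]
  congr 2

end Pool.Agent.Helper97.Stab
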